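import Pool.Agent.ANR.Stmts2

/-!
# FRX: the change of the form of the nodes
-/

set_option autoImplicit false

open scoped BigOperators ComplexConjugate

noncomputable section

namespace Pool.Agent.ANR.H99

open Pool.Agent.ANR

lemma sq_le (a b : ℂ) : |‖b‖ ^ 2 - ‖a‖ ^ 2| ≤ 2 * ‖a‖ * ‖a - b‖ + ‖a - b‖ ^ 2 := by
  have h1 : ‖b‖ ≤ ‖a‖ + ‖a - b‖ := by
    have := norm_sub_norm_le b a
    rw [norm_sub_rev b a] at this
    linarith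
  have h2 : ‖a‖ ≤ ‖b‖ + ‖a - b‖ := by
    have := norm_sub_norm_le a b
    linarith
  have ha := norm_nonneg a
  have hb := norm_nonneg b
  have hd := norm_nonneg (a - b)
  rw [abs_le]
  constructor
  · by_cases h : ‖a - b‖ ≤ ‖a‖
    · have h3 : ‖a‖ - ‖a - b‖ ≤ ‖b‖ := by linarith
      have h4 : 0 ≤ ‖a‖ - ‖a - b‖ := by linarith
      nlinarith [mul_self_le_mul_self h4 h3]
    · push Not at h
      nlinarith [mul_nonneg ha hd, sq_nonneg ‖b‖]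
  · nlinarith [mul_self_le_mul_self hb h1]

theorem frx : FrxStmt := by
  intro X _ _ G G' κ A B m f c ε hs hs' hκ hBA hε hε1 hm
  have hκB : ∀ x ∈ B, 0 ≤ κ x := fun x hx => hκ x (hBA hx)
  -- pointwise bound
  have hpt : ∀ x ∈ A, ∀ y ∈ A, |1 / 2 * (κ x * κ y * ‖G' x y‖ ^ 2 * (f x - f y) ^ 2) -
      1 / 2 * (κ x * κ y * ‖G x y‖ ^ 2 * (f x - f y) ^ 2)| ≤
      (if x ∈ B ∧ y ∈ B then (ε * (1 / 2 * (κ x * κ y * ‖G x y‖ ^ 2 * (f x - f y) ^ 2)) +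
        1 / ε * (κ x * κ y * ‖G x y - G' x y‖ ^ 2 * (f x - f y) ^ 2)) else 0) +
      (if x ∈ B ∧ y ∈ B then 0 else
    κ x * κ y * (‖G x y‖ * ‖G x y - G' x y‖ + ‖G x y - G' x y‖ ^ 2) * (f x - f y) ^ 2) := by
    intro x hx y hy
    have hw : 0 ≤ κ x * κ y * (f x - f y) ^ 2 :=
      mul_nonneg (mul_nonneg (hκ x hx) (hκ y hy)) (sq_nonneg _)
    have h1 := sq_le (G x y) (G' x y)
    have he : |1 / 2 * (κ x * κ y * ‖G' x y‖ ^ 2 * (f x - f y) ^ 2) -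
      1 / 2 * (κ x * κ y * ‖G x y‖ ^ 2 * (f x - f y) ^ 2)| =
      1 / 2 * (κ x * κ y * (f x - f y) ^ 2) * |‖G' x y‖ ^ 2 - ‖G x y‖ ^ 2| := by
      rw [show 1 / 2 * (κ x * κ y * ‖G' x y‖ ^ 2 * (f x - f y) ^ 2) -
        1 / 2 * (κ x * κ y * ‖G x y‖ ^ 2 * (f x - f y) ^ 2) =
        1 / 2 * (κ x * κ y * (f x - f y) ^ 2) * (‖G' x y‖ ^ 2 - ‖G x y‖ ^ 2) by ring, abs_mul,
        abs_of_nonneg (by positivity)]
    rw [he]
    by_cases hB : x ∈ B ∧ y ∈ B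
    · rw [if_pos hB, if_pos hB, add_zero]
      have h2 : |‖G' x y‖ ^ 2 - ‖G x y‖ ^ 2| ≤
          ε * ‖G x y‖ ^ 2 + 2 / ε * ‖G x y - G' x y‖ ^ 2 := by
        refine h1.trans ?_
        have h3 : 2 * ‖G x y‖ * ‖G x y - G' x y‖ ≤
            ε * ‖G x y‖ ^ 2 + 1 / ε * ‖G x y - G' x y‖ ^ 2 := by
          have h4 : 0 ≤ 1 / ε * (ε * ‖G x y‖ - ‖G x y - G' x y‖) ^ 2 := by positivity
          have h5 : 1 / ε * (ε * ‖G x y‖ - ‖G x y - G' x y‖) ^ 2 = ε * ‖G x y‖ ^ 2 +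
            1 / ε * ‖G x y - G' x y‖ ^ 2 - 2 * ‖G x y‖ * ‖G x y - G' x y‖ := by
            field_simp
            ring
          linarith
        have h6 : ‖G x y - G' x y‖ ^ 2 ≤ 1 / ε * ‖G x y - G' x y‖ ^ 2 := by
          have : 1 ≤ 1 / ε := by
            rw [le_div_iff₀ hε]
            linarith
          nlinarith [sq_nonneg ‖G x y - G' x y‖]
        have h7 : 2 / ε * ‖G x y - G' x y‖ ^ 2 = 1 / ε * ‖G x y - G' x y‖ ^ 2 +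
          1 / ε * ‖G x y - G' x y‖ ^ 2 := by ring
        linarith
      calc 1 / 2 * (κ x * κ y * (f x - f y) ^ 2) * |‖G' x y‖ ^ 2 - ‖G x y‖ ^ 2|
          ≤ 1 / 2 * (κ x * κ y * (f x - f y) ^ 2) *
            (ε * ‖G x y‖ ^ 2 + 2 / ε * ‖G x y - G' x y‖ ^ 2) :=
            mul_le_mul_of_nonneg_left h2 (by positivity)
        _ = _ := by
            field_simp
    · rw [if_neg hB, if_neg hB, zero_add]
      calc 1 / 2 * (κ x * κ y * (f x - f y) ^ 2) * |‖G' x y‖ ^ 2 - ‖G x y‖ ^ 2|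
          ≤ 1 / 2 * (κ x * κ y * (f x - f y) ^ 2) *
            (2 * ‖G x y‖ * ‖G x y - G' x y‖ + ‖G x y - G' x y‖ ^ 2) :=
            mul_le_mul_of_nonneg_left h1 (by positivity)
        _ ≤ (κ x * κ y * (f x - f y) ^ 2) *
            (‖G x y‖ * ‖G x y - G' x y‖ + ‖G x y - G' x y‖ ^ 2) := by
            nlinarith [mul_nonneg hw (sq_nonneg ‖G x y - G' x y‖)]
        _ = _ := by ring
  -- the sum over pairs in `B`
  have hBs : ∀ F : X → X → ℝ, ∑ x ∈ A, ∑ y ∈ A, (if x ∈ B ∧ y ∈ B then F x y else 0) =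
      ∑ x ∈ B, ∑ y ∈ B, F x y := by
    intro F
    have h1 : ∀ x ∈ A, ∑ y ∈ A, (if x ∈ B ∧ y ∈ B then F x y else 0) =
        if x ∈ B then ∑ y ∈ B, F x y else 0 := by
      intro x _
      by_cases hx : x ∈ B
      · simp only [hx, true_and, if_true]
        rw [← Finset.sum_filter]
        congr 1
        ext y
        simp only [Finset.mem_filter]
        exact ⟨fun h => h.2, fun h => ⟨hBA h, h⟩⟩
      · simp [hx]
    rw [Finset.sum_congr rfl h1, ← Finset.sum_filter]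
    congr 1
    ext x
    simp only [Finset.mem_filter]
    exact ⟨fun h => h.2, fun h => ⟨hBA h, h⟩⟩
  -- the change in `B`
  have hch : ∑ x ∈ B, ∑ y ∈ B, κ x * κ y * ‖G x y - G' x y‖ ^ 2 * (f x - f y) ^ 2 ≤
      4 * ∑ x ∈ B, κ x * m x * (f x - c) ^ 2 := by
    have h1 : ∀ x ∈ B, ∑ y ∈ B, κ x * κ y * ‖G x y - G' x y‖ ^ 2 * (f x - c) ^ 2 ≤
        κ x * m x * (f x - c) ^ 2 := by
      intro x hx
      have h2 : ∑ y ∈ B, κ x * κ y * ‖G x y - G' x y‖ ^ 2 * (f x - c) ^ 2 =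
          κ x * (f x - c) ^ 2 * ∑ y ∈ B, κ y * ‖G x y - G' x y‖ ^ 2 := by
        rw [Finset.mul_sum]
        refine Finset.sum_congr rfl fun y _ => by ring
      rw [h2]
      calc κ x * (f x - c) ^ 2 * ∑ y ∈ B, κ y * ‖G x y - G' x y‖ ^ 2
          ≤ κ x * (f x - c) ^ 2 * m x :=
            mul_le_mul_of_nonneg_left (hm x hx) (mul_nonneg (hκB x hx) (sq_nonneg _))
        _ = _ := by ring
    have h3 : ∑ x ∈ B, ∑ y ∈ B, κ x * κ y * ‖G x y - G' x y‖ ^ 2 * (f y - c) ^ 2 =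
        ∑ x ∈ B, ∑ y ∈ B, κ x * κ y * ‖G x y - G' x y‖ ^ 2 * (f x - c) ^ 2 := by
      rw [Finset.sum_comm]
      refine Finset.sum_congr rfl fun x _ => Finset.sum_congr rfl fun y _ => ?_
      rw [hs y x, hs' y x]
      ring
    have h4 : ∑ x ∈ B, ∑ y ∈ B, κ x * κ y * ‖G x y - G' x y‖ ^ 2 * (f x - f y) ^ 2 ≤
        ∑ x ∈ B, ∑ y ∈ B, (2 * (κ x * κ y * ‖G x y - G' x y‖ ^ 2 * (f x - c) ^ 2) +
          2 * (κ x * κ y * ‖G x y - G' x y‖ ^ 2 * (f y - c) ^ 2)) := by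
      refine Finset.sum_le_sum fun x hx => Finset.sum_le_sum fun y hy => ?_
      have h5 : 0 ≤ κ x * κ y * ‖G x y - G' x y‖ ^ 2 :=
        mul_nonneg (mul_nonneg (hκB x hx) (hκB y hy)) (sq_nonneg _)
      have h6 : (f x - f y) ^ 2 ≤ 2 * (f x - c) ^ 2 + 2 * (f y - c) ^ 2 := by
        nlinarith [sq_nonneg ((f x - c) + (f y - c))]
      calc κ x * κ y * ‖G x y - G' x y‖ ^ 2 * (f x - f y) ^ 2
          ≤ κ x * κ y * ‖G x y - G' x y‖ ^ 2 * (2 * (f x - c) ^ 2 + 2 * (f y - c) ^ 2) :=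
            mul_le_mul_of_nonneg_left h6 h5
        _ = _ := by ring
    refine h4.trans ?_
    have h7 : ∑ x ∈ B, ∑ y ∈ B, (2 * (κ x * κ y * ‖G x y - G' x y‖ ^ 2 * (f x - c) ^ 2) +
          2 * (κ x * κ y * ‖G x y - G' x y‖ ^ 2 * (f y - c) ^ 2)) =
        2 * ∑ x ∈ B, ∑ y ∈ B, κ x * κ y * ‖G x y - G' x y‖ ^ 2 * (f x - c) ^ 2 +
        2 * ∑ x ∈ B, ∑ y ∈ B, κ x * κ y * ‖G x y - G' x y‖ ^ 2 * (f y - c) ^ 2 := by
      simp only [Finset.sum_add_distrib, Finset.mul_sum]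
    rw [h7, h3]
    have h8 := Finset.sum_le_sum h1
    linarith
  -- assembly
  unfold cE tl
  rw [Finset.mul_sum, Finset.mul_sum, ← Finset.sum_sub_distrib]
  refine (Finset.abs_sum_le_sum_abs _ _).trans ?_
  have hA : ∑ x ∈ A, |1 / 2 * ∑ y ∈ A, κ x * κ y * ‖G' x y‖ ^ 2 * (f x - f y) ^ 2 -
      1 / 2 * ∑ y ∈ A, κ x * κ y * ‖G x y‖ ^ 2 * (f x - f y) ^ 2| ≤
      ∑ x ∈ A, ∑ y ∈ A, ((if x ∈ B ∧ y ∈ B then
        (ε * (1 / 2 * (κ x * κ y * ‖G x y‖ ^ 2 * (f x - f y) ^ 2)) +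
        1 / ε * (κ x * κ y * ‖G x y - G' x y‖ ^ 2 * (f x - f y) ^ 2)) else 0) +
      (if x ∈ B ∧ y ∈ B then 0 else
    κ x * κ y * (‖G x y‖ * ‖G x y - G' x y‖ + ‖G x y - G' x y‖ ^ 2) * (f x - f y) ^ 2)) := by
    refine Finset.sum_le_sum fun x hx => ?_
    rw [Finset.mul_sum, Finset.mul_sum, ← Finset.sum_sub_distrib]
    exact (Finset.abs_sum_le_sum_abs _ _).trans (Finset.sum_le_sum fun y hy => hpt x hx y hy)
  refine hA.trans ?_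
  have h9 : ∑ x ∈ A, ∑ y ∈ A, ((if x ∈ B ∧ y ∈ B then
        (ε * (1 / 2 * (κ x * κ y * ‖G x y‖ ^ 2 * (f x - f y) ^ 2)) +
        1 / ε * (κ x * κ y * ‖G x y - G' x y‖ ^ 2 * (f x - f y) ^ 2)) else 0) +
      (if x ∈ B ∧ y ∈ B then 0 else
    κ x * κ y * (‖G x y‖ * ‖G x y - G' x y‖ + ‖G x y - G' x y‖ ^ 2) * (f x - f y) ^ 2)) =
      ∑ x ∈ B, ∑ y ∈ B, (ε * (1 / 2 * (κ x * κ y * ‖G x y‖ ^ 2 * (f x - f y) ^ 2)) +
        1 / ε * (κ x * κ y * ‖G x y - G' x y‖ ^ 2 * (f x - f y) ^ 2)) +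
      ∑ x ∈ A, ∑ y ∈ A, (if x ∈ B ∧ y ∈ B then 0 else
    κ x * κ y * (‖G x y‖ * ‖G x y - G' x y‖ + ‖G x y - G' x y‖ ^ 2) * (f x - f y) ^ 2) := by
    rw [← hBs]
    simp only [Finset.sum_add_distrib]
  rw [h9]
  have h10 : ∑ x ∈ B, ∑ y ∈ B, (ε * (1 / 2 * (κ x * κ y * ‖G x y‖ ^ 2 * (f x - f y) ^ 2)) +
        1 / ε * (κ x * κ y * ‖G x y - G' x y‖ ^ 2 * (f x - f y) ^ 2)) =
      ε * ∑ x ∈ B, 1 / 2 * ∑ y ∈ B, κ x * κ y * ‖G x y‖ ^ 2 * (f x - f y) ^ 2 +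
      1 / ε * ∑ x ∈ B, ∑ y ∈ B, κ x * κ y * ‖G x y - G' x y‖ ^ 2 * (f x - f y) ^ 2 := by
    simp only [Finset.sum_add_distrib, Finset.mul_sum]
  rw [h10]
  have h11 : 1 / ε * ∑ x ∈ B, ∑ y ∈ B, κ x * κ y * ‖G x y - G' x y‖ ^ 2 * (f x - f y) ^ 2 ≤
      4 / ε * ∑ x ∈ B, κ x * m x * (f x - c) ^ 2 := by
    calc _ ≤ 1 / ε * (4 * ∑ x ∈ B, κ x * m x * (f x - c) ^ 2) :=
          mul_le_mul_of_nonneg_left hch (by positivity)
      _ = _ := by ring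
  rw [Finset.mul_sum (s := B) (a := (1 : ℝ) / 2)]
  linarith

end Pool.Agent.ANR.H99
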